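import Pool.Agent.Lib.MP_b5021c_nt.IfaceOF
import Pool.Agent.Lib.MP_b5021c_nt.SF.H76.Gai

/-!
# Board b5, stage 3, leaf (O-f), row OF_TWO (helper24): two Fejér kernels
-/

namespace Pool.Agent.B5.H24on2

open scoped LaurentPolynomial
open Polynomial
open Pool.Agent.B5 Pool.Agent.B5.H76

/-- `r_m`: real part `|z - b|² |1 + .. + z^(m-1)|²` on the circle. -/
noncomputable def rm (b : ℝ) (m : ℕ) : ℂ[X] :=
  C (((1 - b) ^ 2 : ℝ) : ℂ) * gR 1 m + C ((2 * b : ℝ) : ℂ) * (1 - X ^ m)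

theorem rm_eval (b : ℝ) (m : ℕ) (z : ℂ) : (rm b m).eval z =
    (((1 - b) ^ 2 : ℝ) : ℂ) * (gR 1 m).eval z + ((2 * b : ℝ) : ℂ) * (1 - z ^ m) := by
  unfold rm
  simp only [eval_add, eval_sub, eval_mul, eval_pow, eval_C, eval_X, eval_one]

theorem rm_circle (b : ℝ) (m : ℕ) {z : ℂ} (hz : ‖z‖ = 1) : ((rm b m).eval z).re =
    ‖z - (b : ℂ)‖ ^ 2 * ‖∑ k ∈ Finset.range m, z ^ k‖ ^ 2 := by
  have h1 : (gR 1 m).eval z =
      ∑ j ∈ Finset.range m, (2 * (∑ k ∈ Finset.range (j + 1), z ^ k) - 1) := by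
    rw [gR_eval]
    simp only [Int.cast_one, one_mul]
  rw [fejer_shift hz, rm_eval, h1, Complex.add_re, Complex.re_ofReal_mul,
    Complex.re_ofReal_mul, fejer hz, Complex.sub_re, Complex.one_re]

theorem rm_real (b : ℝ) (m : ℕ) (y : ℝ) : ((rm b m).eval (y : ℂ)).re = (1 - b) ^ 2 *
      (∑ j ∈ Finset.range m, (2 * (∑ k ∈ Finset.range (j + 1), y ^ k) - 1)) +
      2 * b * (1 - y ^ m) := by
  have h0 := gR_eval_real 1 m y
  simp only [Int.cast_one, one_mul] at h0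
  rw [rm_eval, h0]
  have h1 : (1 - (y : ℂ) ^ m) = ((1 - y ^ m : ℝ) : ℂ) := by
    push_cast
    rfl
  rw [h1, ← Complex.ofReal_mul, ← Complex.ofReal_mul, ← Complex.ofReal_add, Complex.ofReal_re]

theorem rm_zero (b : ℝ) {m : ℕ} (hm : 1 ≤ m) :
    ((rm b m).coeff 0).re = (1 - b) ^ 2 * m + 2 * b := by
  have h1 := rm_real b m 0
  rw [Complex.ofReal_zero] at h1
  rw [coeff_zero_eq_eval_zero, h1, zero_pow (by omega)]
  have h2 : ∀ j : ℕ, (∑ k ∈ Finset.range (j + 1), (0 : ℝ) ^ k) = 1 := by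
    intro j
    rw [Finset.sum_range_succ']
    simp
  simp only [h2]
  rw [Finset.sum_const, Finset.card_range, nsmul_eq_mul]
  ring

/-- `r_m(a) - q_a r_m(0) ≥ (1-b)² (1 - q_a) + 2 b (1 - a - q_a)`. -/
theorem rm_gain {a b Q : ℝ} (ha0 : 0 ≤ a) (ha1 : a ≤ 1) (hb : 0 ≤ b) (hQ : Q ≤ 1) {m : ℕ}
    (hm : 1 ≤ m) : (1 - b) ^ 2 * (1 - Q) + 2 * b * (1 - a - Q) ≤
      ((rm b m).eval (a : ℂ)).re - Q * ((rm b m).coeff 0).re := by
  rw [rm_real, rm_zero b hm]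
  have hP : (m : ℝ) ≤
      ∑ j ∈ Finset.range m, (2 * (∑ k ∈ Finset.range (j + 1), a ^ k) - 1) := by
    have h1 : ∑ j ∈ Finset.range m, (1 : ℝ) ≤
        ∑ j ∈ Finset.range m, (2 * (∑ k ∈ Finset.range (j + 1), a ^ k) - 1) := by
      refine Finset.sum_le_sum (fun j _ => ?_)
      rw [Finset.sum_range_succ', pow_zero]
      have h2 : 0 ≤ ∑ k ∈ Finset.range j, a ^ (k + 1) :=
        Finset.sum_nonneg (fun _ _ => by positivity)
      linarith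
    simpa using h1
  obtain ⟨p, hp⟩ : ∃ p : ℝ, p =
      ∑ j ∈ Finset.range m, (2 * (∑ k ∈ Finset.range (j + 1), a ^ k) - 1) := ⟨_, rfl⟩
  rw [← hp] at hP ⊢
  have ham : a ^ m ≤ a := by
    calc a ^ m ≤ a ^ 1 := pow_le_pow_of_le_one ha0 ha1 hm
      _ = a := pow_one a
  have hm1 : (1 : ℝ) ≤ m := by exact_mod_cast hm
  have h1 : 0 ≤ (1 - b) ^ 2 * ((p - m) + (m - 1) * (1 - Q)) := by
    have : 0 ≤ (m - 1 : ℝ) * (1 - Q) := mul_nonneg (by linarith) (by linarith)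
    exact mul_nonneg (sq_nonneg _) (by linarith)
  have h2 : 0 ≤ 2 * b * (a - a ^ m) := mul_nonneg (by linarith) (by linarith)
  nlinarith [h1, h2]

/-- Row OF_TWO. -/
theorem on2 (hCZM : CzmS) : On2S := by
  intro q f a T' s W m n hLD hC1 ha0 ha1 hqa hq0 hf hm hn hMass
  have hainv : (a⁻¹)⁻¹ = a := inv_inv a
  have haT : 1 < |a⁻¹| := by
    rw [abs_of_pos (inv_pos.2 ha0)]
    exact (one_lt_inv₀ ha0).2 ha1
  have hq : (cpz q).eval (((a⁻¹)⁻¹ : ℝ) : ℂ) = 0 := by rw [hainv]; exact hqa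
  -- the mass on the circle
  have hMass' : ∀ z : ℂ, ‖z‖ = 1 →
      (‖∑ k ∈ Finset.range m, z ^ k‖ ^ 2 + ‖∑ k ∈ Finset.range n, z ^ k‖ ^ 2) *
        ‖(cpz (q + X * f)).eval z‖ ^ 2 ≤
      ((cpz (q - X * f)).eval z * (starRingEnd ℂ) ((cpz (q + X * f)).eval z)).re := by
    intro z hz
    have h1 := hMass ⟨z, mem_sphere_zero_iff_norm.mpr hz⟩
    rw [map_add, Complex.add_re, fej_val, fej_val] at h1
    simp only [Int.cast_one, one_mul] at h1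
    exact h1
  have hpos : ∀ z : ℂ, ‖z‖ = 1 →
      0 ≤ ((cpz (q - X * f)).eval z * (starRingEnd ℂ) ((cpz (q + X * f)).eval z)).re :=
    fun z hz => le_trans (by positivity) (hMass' z hz)
  obtain ⟨b, hb⟩ : ∃ b : ℝ, b = T'⁻¹ := ⟨_, rfl⟩
  obtain ⟨u, hu⟩ : ∃ u : ℝ, u = ((f.coeff 0 : ℤ) : ℝ) := ⟨_, rfl⟩
  have hu1 : 1 ≤ u := by rw [hu]; exact_mod_cast hf
  have hfq : ((f.coeff 0 * q.coeff 0 : ℤ) : ℝ) = u := by rw [hq0, mul_one, hu]
  -- the sign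
  obtain ⟨h0i, h0ii⟩ := hCZM q f a⁻¹ T' s W 0 hLD hC1 haT hq (by
    intro z hz
    rw [eval_zero, Complex.zero_re, zero_mul]
    exact mul_nonneg (by positivity) (hpos z hz))
  rw [coeff_zero, Complex.zero_re, hfq, ← hb] at h0i
  rw [eval_zero, coeff_zero, Complex.zero_re, zero_add, sub_zero, hainv, hfq, ← hb,
    abs_of_pos ha0] at h0ii
  have hQ0 : 0 ≤ (1 - a) / (1 + a) := div_nonneg (by linarith) (by linarith)
  have hb0 : 0 < b := by
    have h1 := mul_nonneg hQ0 h0i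
    have h2 : 0 < b * a⁻¹ := by nlinarith [sq_nonneg b]
    exact (mul_pos_iff_of_pos_right (inv_pos.2 ha0)).1 h2
  have hT'0 : T' ≠ 0 := by
    rintro rfl
    rw [inv_zero] at hb
    linarith
  have hbT : b * T' = 1 := by rw [hb]; exact inv_mul_cancel₀ hT'0
  -- the inequality
  obtain ⟨-, hii⟩ := hCZM q f a⁻¹ T' s W (rm b m + rm b n) hLD hC1 haT hq (by
    intro z hz
    rw [eval_add, Complex.add_re, rm_circle b m hz, rm_circle b n hz, ← hb, ← mul_add, mul_assoc]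
    exact mul_le_mul_of_nonneg_left (hMass' z hz) (by positivity))
  rw [eval_add, coeff_add, Complex.add_re, Complex.add_re, hainv, hfq, ← hb,
    abs_of_pos ha0] at hii
  obtain ⟨Q, hQ⟩ : ∃ Q : ℝ, Q = (1 - a) / (1 + a) := ⟨_, rfl⟩
  have hQa : Q * (1 + a) = 1 - a := by
    rw [hQ]
    exact div_mul_cancel₀ _ (by linarith)
  have hQ1 : Q ≤ 1 := by
    rw [hQ, div_le_one (by linarith)]
    linarith
  rw [← hQ] at hii
  have hgm := rm_gain ha0.le ha1.le hb0.le hQ1 hm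
  have hgn := rm_gain ha0.le ha1.le hb0.le hQ1 hn
  have hmain : 2 * ((1 - b) ^ 2 * (1 - Q) + 2 * b * (1 - a - Q)) +
      Q * (1 + b ^ 2 + 2 * b * u) ≤ 2 * b * a⁻¹ - 1 - b ^ 2 := by
    linarith
  -- multiply by `(1 + a) / 2`
  have hmul := mul_le_mul_of_nonneg_right hmain (show 0 ≤ (1 + a) / 2 by linarith)
  have hfin : b * (T' + b + u * (1 - a) + 2 * (a * (T' + b - 1 - a))) ≤ b * (a⁻¹ + 1) := by
    have e1 : (2 * ((1 - b) ^ 2 * (1 - Q) + 2 * b * (1 - a - Q)) +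
        Q * (1 + b ^ 2 + 2 * b * u)) * ((1 + a) / 2) =
        (1 - b) ^ 2 * (2 * a) + 2 * b * (a * (1 - a)) +
          (1 - a) * (1 + b ^ 2 + 2 * b * u) / 2 := by
      linear_combination (-(1 - b) ^ 2 - 2 * b + (1 + b ^ 2 + 2 * b * u) / 2) * hQa
    have e2 : (2 * b * a⁻¹ - 1 - b ^ 2) * ((1 + a) / 2) =
        b * (a⁻¹ + 1) - (1 + b ^ 2) * (1 + a) / 2 := by
      have : a⁻¹ * a = 1 := inv_mul_cancel₀ ha0.ne'
      linear_combination b * this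
    rw [e1, e2] at hmul
    have e3 : b * (T' + b + u * (1 - a) + 2 * (a * (T' + b - 1 - a))) =
        (1 + b ^ 2) * (1 + 2 * a) + b * u * (1 - a) - 2 * a * b * (1 + a) := by
      linear_combination (1 + 2 * a) * hbT
    rw [e3]
    nlinarith [hmul]
  have h := le_of_mul_le_mul_left hfin hb0
  rw [← hb, ← hu]
  exact h

end Pool.Agent.B5.H24on2
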